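import Pool.Agent.Y553.PL.Stm

/-! Project PL (helper553): the example satisfies the axioms. -/

set_option autoImplicit false

namespace Pool.Agent.Y684.PL

open Pool.Agent.Y553.PL

variable {q L : ℕ}

theorem adj {x y : Vt q L} : (ex q L).graph.Adj x y ↔ (Er x y ∨ Er y x) := Iff.rfl
theorem c0 {x : Vt q L} : x ∈ (ex q L).colour 0 ↔ ∃ p, x = .s p := Iff.rfl
theorem c1 {x : Vt q L} : x ∈ (ex q L).colour 1 ↔ ∃ i, x = .a i := Iff.rfl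
theorem c2 {x : Vt q L} : x ∈ (ex q L).colour 2 ↔ ∃ j, x = .b j := Iff.rfl
theorem c3 {x : Vt q L} : x ∈ (ex q L).colour 3 ↔ ∃ i j, x = .d i j := Iff.rfl
theorem c4 {x : Vt q L} : x ∈ (ex q L).colour 4 ↔ ∃ g, x = .w g := Iff.rfl
theorem c10 {x : Vt q L} : x ∈ (ex q L).colour 10 ↔
    ∃ (i : Fin q) (j : ZMod q), x = .d i j ∧ i.val < j.val := Iff.rfl
theorem c11 {x : Vt q L} : x ∈ (ex q L).colour 11 ↔
    ∃ g : Fin q → ZMod q, x = .w g ∧ ∃ i0 i1 i2 i3 : Fin q, i0.val = 0 ∧ i1.val = 1 ∧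
      i2.val = 2 ∧ i3.val = 3 ∧ g i3 = g i0 + g i1 * g i2 := Iff.rfl
theorem c12 {x : Vt q L} : x ∈ (ex q L).colour 12 ↔ ∃ i : Fin q, x = .a i ∧ i.val = 0 := Iff.rfl
theorem c13 {x : Vt q L} : x ∈ (ex q L).colour 13 ↔ ∃ i : Fin q, x = .a i ∧ i.val = 1 := Iff.rfl
theorem c14 {x : Vt q L} : x ∈ (ex q L).colour 14 ↔ ∃ i : Fin q, x = .a i ∧ i.val = 2 := Iff.rfl
theorem c15 {x : Vt q L} : x ∈ (ex q L).colour 15 ↔ ∃ i : Fin q, x = .a i ∧ i.val = 3 := Iff.rfl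

theorem arr {g : Fin q → ZMod q} {i : Fin q} {j : ZMod q} :
    Arr (ex q L) (.w g) (.a i) (.b j) ↔ g i = j := by
  unfold Arr
  simp only [c3, adj]
  constructor
  · rintro ⟨_, ⟨i', j', rfl⟩, h1, h2, h3⟩
    simp only [Er, or_false] at h1 h2 h3
    rw [← h1, ← h2]
    exact h3
  · intro h
    exact ⟨.d i j, ⟨i, j, rfl⟩, Or.inl rfl, Or.inl rfl, Or.inl h⟩

theorem lt {i i' : Fin q} : Lt (ex q L) (.a i) (.a i') ↔ i.val < i'.val := by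
  have hv : ((i'.val : ℕ) : ZMod q).val = i'.val := ZMod.val_natCast_of_lt i'.isLt
  unfold Lt
  simp only [c2, c3, c10, adj]
  constructor
  · rintro ⟨_, ⟨j, rfl⟩, h1, _, ⟨k, l, rfl⟩, ⟨k', l', h2, h3⟩, h4, h5⟩
    simp only [Er, or_false] at h1 h4 h5
    rw [Vt.d.injEq] at h2
    rw [← h2.1, ← h2.2, h4, h5, ← h1, hv] at h3
    exact h3
  · intro h
    refine ⟨.b ((i'.val : ℕ) : ZMod q), ⟨_, rfl⟩, Or.inl rfl, .d i ((i'.val : ℕ) : ZMod q),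
      ⟨_, _, rfl⟩, ⟨_, _, rfl, ?_⟩, Or.inl rfl, Or.inl rfl⟩
    rw [hv]
    exact h

theorem acc (hq : 4 ≤ q) {z u x y : ZMod q} :
    Pool.Agent.Y553.PL.Acc (ex q L) (.b z) (.b u) (.b x) (.b y) ↔ y = z + u * x := by
  unfold Pool.Agent.Y553.PL.Acc
  simp only [c1, c4, c11, c12, c13, c14, c15]
  constructor
  · rintro ⟨_, ⟨g, rfl⟩, ⟨g', hg, i0, i1, i2, i3, h0, h1, h2, h3, hh⟩,
      ⟨_, ⟨a0, rfl⟩, ⟨a0', e0, f0⟩, r0⟩, ⟨_, ⟨a1, rfl⟩, ⟨a1', e1, f1⟩, r1⟩,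
      ⟨_, ⟨a2, rfl⟩, ⟨a2', e2, f2⟩, r2⟩, ⟨_, ⟨a3, rfl⟩, ⟨a3', e3, f3⟩, r3⟩⟩
    rw [Vt.w.injEq] at hg
    rw [Vt.a.injEq] at e0 e1 e2 e3
    subst hg
    subst e0 e1 e2 e3
    rw [arr] at r0 r1 r2 r3
    have k0 : a0 = i0 := Fin.ext (f0.trans h0.symm)
    have k1 : a1 = i1 := Fin.ext (f1.trans h1.symm)
    have k2 : a2 = i2 := Fin.ext (f2.trans h2.symm)
    have k3 : a3 = i3 := Fin.ext (f3.trans h3.symm)
    rw [← r0, ← r1, ← r2, ← r3, k0, k1, k2, k3]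
    exact hh
  · intro h
    refine ⟨.w fun i => if i.val = 0 then z else if i.val = 1 then u else if i.val = 2 then x else y,
      ⟨_, rfl⟩, ⟨_, rfl, ⟨0, by omega⟩, ⟨1, by omega⟩, ⟨2, by omega⟩, ⟨3, by omega⟩, rfl, rfl, rfl,
        rfl, ?_⟩,
      ⟨.a ⟨0, by omega⟩, ⟨_, rfl⟩, ⟨_, rfl, rfl⟩, arr.2 ?_⟩,
      ⟨.a ⟨1, by omega⟩, ⟨_, rfl⟩, ⟨_, rfl, rfl⟩, arr.2 ?_⟩,
      ⟨.a ⟨2, by omega⟩, ⟨_, rfl⟩, ⟨_, rfl, rfl⟩, arr.2 ?_⟩,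
      ⟨.a ⟨3, by omega⟩, ⟨_, rfl⟩, ⟨_, rfl, rfl⟩, arr.2 ?_⟩⟩
    · simpa using h
    · simp
    · simp
    · simp
    · simp

theorem t_EXAX : St_EXAX := by
  intro q L hqp hq4
  have : Fact q.Prime := ⟨hqp⟩
  exact
  { cover := by
      intro x
      simp only [c0, c1, c2, c3, c4]
      cases x <;> simp
    disj := by
      intro x
      simp only [c0, c4]
      rintro ⟨p, rfl⟩ ⟨X, hX⟩
      cases hX
    fst := by
      simp only [c1, c3, adj]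
      rintro _ ⟨i, j, rfl⟩
      exact ⟨.a i, ⟨i, rfl⟩, Or.inl rfl⟩
    snd := by
      simp only [c2, c3, adj]
      rintro _ ⟨i, j, rfl⟩
      exact ⟨.b j, ⟨j, rfl⟩, Or.inl rfl⟩
    pairu := by
      simp only [c1, c2, c3, adj]
      rintro _ ⟨i, j, rfl⟩ _ ⟨i', j', rfl⟩ _ ⟨u, rfl⟩ _ ⟨v, rfl⟩ h1 h2 h3 h4
      simp only [Er, or_false] at h1 h2 h3 h4
      rw [h1, h2, h3, h4]
    lt_irr := by
      simp only [c1]
      rintro _ ⟨i, rfl⟩ h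
      exact lt_irrefl _ (lt.1 h)
    lt_trans := by
      simp only [c1]
      rintro _ ⟨i, rfl⟩ _ ⟨j, rfl⟩ _ ⟨k, rfl⟩ h1 h2
      exact lt.2 ((lt.1 h1).trans (lt.1 h2))
    lt_tot := by
      simp only [c1]
      rintro _ ⟨i, rfl⟩ _ ⟨j, rfl⟩
      rcases lt_trichotomy i.val j.val with h | h | h
      · exact Or.inr (Or.inl (lt.2 h))
      · exact Or.inl (congrArg Vt.a (Fin.ext h))
      · exact Or.inr (Or.inr (lt.2 h))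
    mat := by
      simp only [c1, c2, adj]
      rintro _ ⟨i, rfl⟩
      exact ⟨.b ((i.val : ℕ) : ZMod q), ⟨_, rfl⟩, Or.inl rfl⟩
    matu := by
      simp only [c1, c2, adj]
      rintro _ ⟨i, rfl⟩ _ ⟨i', rfl⟩ _ ⟨j, rfl⟩ h1 h2
      simp only [Er, or_false] at h1 h2
      have hv : ((i.val : ℕ) : ZMod q).val = i.val := ZMod.val_natCast_of_lt i.isLt
      have hv' : ((i'.val : ℕ) : ZMod q).val = i'.val := ZMod.val_natCast_of_lt i'.isLt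
      refine congrArg Vt.a (Fin.ext ?_)
      rw [← hv, ← hv', h1, h2]
    val := by
      simp only [c1, c2, c4]
      rintro _ ⟨g, rfl⟩ _ ⟨i, rfl⟩
      exact ⟨.b (g i), ⟨_, rfl⟩, arr.2 rfl⟩
    valu := by
      simp only [c1, c2, c4]
      rintro _ ⟨g, rfl⟩ _ ⟨i, rfl⟩ _ ⟨j, rfl⟩ _ ⟨j', rfl⟩ h1 h2
      rw [← arr.1 h1, ← arr.1 h2]
    wne := by
      simp only [c4]
      exact ⟨.w fun _ => 0, ⟨_, rfl⟩⟩
    upd := by
      simp only [c1, c2, c4]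
      rintro _ ⟨g, rfl⟩ _ ⟨i, rfl⟩ _ ⟨j, rfl⟩
      refine ⟨.w (Function.update g i j), ⟨_, rfl⟩, arr.2 (Function.update_self _ _ _), ?_⟩
      rintro _ ⟨i', rfl⟩ hne _ ⟨j', rfl⟩
      have hne' : i' ≠ i := fun h => hne (congrArg Vt.a h)
      rw [arr, arr, Function.update_of_ne hne']
    ext := by
      simp only [c1, c2, c4]
      rintro _ ⟨g, rfl⟩ _ ⟨g', rfl⟩ h
      congr 1
      funext i
      exact (arr.1 ((h _ ⟨i, rfl⟩ _ ⟨g i, rfl⟩).1 (arr.2 rfl))).symm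
    acct := by
      simp only [c2]
      rintro _ ⟨z, rfl⟩ _ ⟨u, rfl⟩ _ ⟨x, rfl⟩
      exact ⟨.b (z + u * x), ⟨_, rfl⟩, (acc hq4).2 rfl⟩
    accu := by
      simp only [c2]
      rintro _ ⟨z, rfl⟩ _ ⟨u, rfl⟩ _ ⟨x, rfl⟩ _ ⟨y, rfl⟩ _ ⟨y', rfl⟩ h1 h2
      rw [(acc hq4).1 h1, (acc hq4).1 h2]
    acci := by
      simp only [c2]
      rintro _ ⟨z, rfl⟩ _ ⟨z', rfl⟩ _ ⟨u, rfl⟩ _ ⟨x, rfl⟩ _ ⟨y, rfl⟩ h1 h2
      have h3 := (acc hq4).1 h1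
      rw [(acc hq4).1 h2] at h3
      rw [add_right_cancel h3]
    accq := by
      simp only [c2]
      rintro _ ⟨z, rfl⟩ _ ⟨z', rfl⟩ _ ⟨u, rfl⟩ _ ⟨u', rfl⟩ _ ⟨x, rfl⟩ _ ⟨x', rfl⟩ _ ⟨y, rfl⟩
        _ ⟨y', rfl⟩ h1 h2 h3 h4
      have k1 := (acc hq4).1 h1
      have k2 := (acc hq4).1 h2
      have k3 := (acc hq4).1 h3
      have k4 := (acc hq4).1 h4
      have k5 : (u - u') * (x - x') = 0 := by
        linear_combination k1 * (-1) + k2 + k3 - k4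
      rcases mul_eq_zero.1 k5 with h | h
      · right
        rw [sub_eq_zero.1 h]
      · left
        rw [sub_eq_zero.1 h] }

end Pool.Agent.Y684.PL
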